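import Pool.Agent.K1H97.WA.Cnt

/-!
# Many curves with given local conditions and trivial 2-primary part of Ш
-/

set_option autoImplicit false

namespace Pool.Agent.K1H97.WA

open Finset
open Pool.Agent.Y676

lemma pq_one {W Q q M : ℕ} (hq : q ∈ PQ W Q) (hM : M ∣ W) : (q : ℤ) ≡ 1 [ZMOD M] := by
  unfold PQ at hq
  have h1 : q % M = 1 % M := mod_one (mem_filter.1 hq).2.2 hM
  have h2 : (q : ℤ) % (M : ℤ) = 1 % (M : ℤ) := by exact_mod_cast h1
  exact h2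

lemma pq_pr {W Q q : ℕ} (hq : q ∈ PQ W Q) : q.Prime ∧ 1 ≤ q ∧ q ≤ Q := by
  unfold PQ at hq
  rw [mem_filter, mem_Icc] at hq
  exact ⟨hq.2.1, hq.1.1, hq.1.2⟩

/-- the exponent -/
def CC : ℕ := 3 * CE 1 + 1

open Classical in
/-- **Many curves with given local conditions.** -/
theorem count (M : ℕ) (hM : 0 < M) (a₀ b₀ : ℤ) (α β δ : ℝ) (hδ : 0 < δ) :
    ∃ X0 : ℕ, ∀ X : ℕ, X0 ≤ X → (X : ℝ) ^ 2 / (Real.log X) ^ CC ≤
      (((Bx X).filter (fun t => LC M a₀ b₀ α β δ t ∧ Tr (t.1 : ℚ) (t.2 : ℚ))).card : ℝ) := by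
  obtain ⟨c, hc, T0, hcone⟩ := cone_count M hM a₀ b₀ α β δ hδ
  obtain ⟨Y0, hY02, hbox⟩ := box_all 1 (c / 2) (by positivity)
  obtain ⟨Y, hY⟩ : ∃ Y : ℕ, Y = max Y0 M := ⟨_, rfl⟩
  have hYge : 2 ≤ Y := by rw [hY]; exact hY02.trans (le_max_left _ _)
  obtain ⟨X1, hX1⟩ := hbox Y (by rw [hY]; exact le_max_left _ _)
  have hMW : M ∣ WY Y := by
    unfold WY
    exact (Nat.dvd_factorial hM (by rw [hY]; exact le_max_right _ _)).mul_left _
  have hW0 : 0 < WY Y := by unfold WY; have := Nat.factorial_pos Y; positivity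
  obtain ⟨c', Q0, hc', hpnt⟩ := Pool.Agent.Y157.SH.pnt (WY Y) hW0
  obtain ⟨N0, hN0⟩ : ∃ N0 : ℕ, N0 = T0 + X1 + 2 := ⟨_, rfl⟩
  have tL : Filter.Tendsto (fun X : ℕ => Real.log (X : ℝ)) Filter.atTop Filter.atTop :=
    Real.tendsto_log_atTop.comp tendsto_natCast_atTop_atTop
  have hlit : ∀ᶠ X : ℕ in Filter.atTop, 2 * (Real.log X) ^ (CE 1) * N0 ≤ X := by
    have h1 := (Real.isLittleO_pow_log_id_atTop (n := CE 1)).comp_tendsto
      (tendsto_natCast_atTop_atTop (R := ℝ))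
    have hN0' : (0 : ℝ) < N0 := by rw [hN0]; push_cast; positivity
    have h2 := h1.bound (show (0 : ℝ) < 1 / (2 * N0) by positivity)
    filter_upwards [h2, Filter.eventually_ge_atTop 1] with X hX hX1
    simp only [Function.comp, id, Real.norm_eq_abs, Nat.abs_cast] at hX
    have h3 : (Real.log X) ^ (CE 1) ≤ 1 / (2 * N0) * X := (le_abs_self _).trans hX
    calc 2 * (Real.log X) ^ (CE 1) * N0 ≤ 2 * (1 / (2 * N0) * X) * N0 := by gcongr
      _ = X := by field_simp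
  obtain ⟨X2, hX2⟩ := Filter.eventually_atTop.1 ((tL.eventually_ge_atTop 1).and
    ((tL.eventually_ge_atTop (64 / c)).and ((tL.eventually_ge_atTop (Q0 + 2)).and hlit)))
  refine ⟨X2, fun X hX => ?_⟩
  obtain ⟨l1, l2, l3, l4⟩ := hX2 X hX
  obtain ⟨L, hL⟩ : ∃ L : ℝ, L = Real.log X := ⟨_, rfl⟩
  rw [← hL] at l1 l2 l3 l4 ⊢
  obtain ⟨Q, hQ⟩ : ∃ Q : ℕ, Q = ⌈L ^ (CE 1)⌉₊ := ⟨_, rfl⟩
  have q1 : L ^ (CE 1) ≤ Q := by rw [hQ]; exact Nat.le_ceil _
  have hL1 : 1 ≤ L ^ (CE 1) := one_le_pow₀ l1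
  have q2 : (Q : ℝ) ≤ 2 * L ^ (CE 1) := by
    have h1 : (Q : ℝ) < L ^ (CE 1) + 1 := by rw [hQ]; exact Nat.ceil_lt_add_one (by positivity)
    linarith
  have q3 : (Q0 : ℝ) + 2 ≤ Q := by
    have e1 : L ≤ L ^ (CE 1) := le_self_pow₀ l1 (by unfold CE; omega)
    linarith
  have hQ0 : Q0 ≤ Q := by
    have : (Q0 : ℝ) ≤ Q := by linarith
    exact_mod_cast this
  have hQ2 : (2 : ℝ) ≤ Q := by
    have : (0 : ℝ) ≤ Q0 := Nat.cast_nonneg _
    linarith
  have hQpos : 0 < Q := by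
    have : (0 : ℝ) < Q := by linarith
    exact_mod_cast this
  have hPQ : 0 < (PQ (WY Y) Q).card := by
    have h1 := hpnt Q hQ0
    have h2 : 0 < c' * Q / Real.log Q := by
      have : 0 < Real.log Q := Real.log_pos (by linarith)
      positivity
    have h4 : (0 : ℝ) < (PQ (WY Y) Q).card := lt_of_lt_of_le h2 h1
    exact_mod_cast h4
  -- the box
  obtain ⟨T, hT⟩ : ∃ T : ℕ, T = X / Q := ⟨_, rfl⟩
  have hTN : N0 ≤ T := by
    rw [hT, Nat.le_div_iff_mul_le hQpos]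
    have h1 : (N0 : ℝ) * Q ≤ X := by
      calc (N0 : ℝ) * Q ≤ N0 * (2 * L ^ (CE 1)) := by gcongr
        _ = 2 * L ^ (CE 1) * N0 := by ring
        _ ≤ X := l4
    exact_mod_cast h1
  have hT1 : 1 ≤ T := by omega
  have hTX : T * Q ≤ X := by rw [hT]; exact Nat.div_mul_le_self X Q
  have hTX1 : T ≤ X := (Nat.le_mul_of_pos_right T hQpos).trans hTX
  have hXT : (X : ℝ) ≤ 2 * Q * T := by
    have h1 : X < (T + 1) * Q := by
      rw [hT]
      exact (Nat.div_lt_iff_lt_mul hQpos).1 (Nat.lt_succ_self _)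
    have h2 : X ≤ 2 * Q * T := by nlinarith
    exact_mod_cast h2
  have hT0r : (0 : ℝ) < T := by exact_mod_cast hT1
  have hQT : (Real.log T) ^ (CE 1) ≤ 2 * Q := by
    have h1 : Real.log T ≤ L := by
      rw [hL]
      exact Real.log_le_log hT0r (by exact_mod_cast hTX1)
    have h2 : (Real.log T) ^ (CE 1) ≤ L ^ (CE 1) :=
      pow_le_pow_left₀ (Real.log_nonneg (by exact_mod_cast hT1)) h1 _
    linarith
  -- the typical pairs
  obtain ⟨G, hG⟩ : ∃ G : Finset (ℤ × ℤ), G = (Bx T).filter (fun t => LC M a₀ b₀ α β δ t ∧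
    GT Y T Q (one1 t)) := ⟨_, rfl⟩
  have hGc : c / 2 * (T : ℝ) ^ 2 ≤ (G.card : ℝ) := by
    have h1 := hcone T (by omega)
    have h2 : (((Bx T).filter (fun t => ¬ GT Y T Q (one1 t))).card : ℝ) ≤
        c / 2 * (T : ℝ) ^ 2 := by
      have h1 := hX1 T (by omega) Q hQT
      rw [mul_one] at h1
      refine le_trans ?_ h1
      have h2 : ((Bx T).filter (fun t => ¬ GT Y T Q (one1 t))).card ≤
          ((TB 1 T).filter (fun t => ¬ GT Y T Q t)).card := by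
        apply card_le_card_of_injOn one1
        · intro t ht
          rw [mem_coe, mem_filter] at ht
          rw [mem_coe, mem_filter, mem_TB_one]
          exact ht
        · intro t _ t' _ h
          exact congrFun h 0
      exact_mod_cast h2
    have h3 : ((Bx T).filter (LC M a₀ b₀ α β δ)).card ≤
        G.card + ((Bx T).filter (fun t => ¬ GT Y T Q (one1 t))).card := by
      refine le_trans (card_le_card ?_) (card_union_le _ _)
      intro t ht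
      rw [mem_filter] at ht
      rw [mem_union, hG, mem_filter, mem_filter]
      by_cases h : GT Y T Q (one1 t)
      · exact Or.inl ⟨ht.1, ht.2, h⟩
      · exact Or.inr ⟨ht.1, h⟩
    have h4 : (((Bx T).filter (LC M a₀ b₀ α β δ)).card : ℝ) ≤
        G.card + ((Bx T).filter (fun t => ¬ GT Y T Q (one1 t))).card := by exact_mod_cast h3
    linarith
  have hex : ∀ t : ℤ × ℤ, ∃ q : ℕ, t ∈ G → q ∈ PQ (WY Y) Q ∧
      Tr (((q : ℤ) * t.1 : ℤ) : ℚ) (((q : ℤ) * t.2 : ℤ) : ℚ) := by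
    intro t
    by_cases ht : t ∈ G
    · have ht' := ht
      rw [hG, mem_filter] at ht'
      obtain ⟨q, h1, h2⟩ := exists_tw hYge ht'.1 ht'.2.2 hPQ
      exact ⟨q, fun _ => ⟨h1, h2⟩⟩
    · exact ⟨0, fun h => absurd h ht⟩
  choose f hf using hex
  obtain ⟨q, hq, hqc⟩ := Finset.exists_le_card_fiber_of_nsmul_le_card_of_maps_to
    (s := G) (t := Icc 1 Q) (f := f) (b := (G.card : ℝ) / Q)
    (fun t ht => by
      obtain ⟨-, h1, h2⟩ := pq_pr (hf t ht).1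
      exact mem_Icc.2 ⟨h1, h2⟩)
    ⟨1, mem_Icc.2 ⟨le_rfl, hQpos⟩⟩
    (by
      rw [Nat.card_Icc, Nat.add_sub_cancel, nsmul_eq_mul]
      have : (Q : ℝ) ≠ 0 := by positivity
      rw [mul_div_cancel₀ _ this])
  have hQr : (0 : ℝ) < Q := by linarith
  have hpos : (0 : ℝ) < (G.card : ℝ) / Q := by
    have : 0 < c / 2 * (T : ℝ) ^ 2 := by positivity
    have : (0 : ℝ) < G.card := by linarith
    positivity
  have hqq : q ∈ PQ (WY Y) Q := by
    have h1 : 0 < (G.filter (fun t => f t = q)).card := by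
      have : (0 : ℝ) < ((G.filter (fun t => f t = q)).card : ℝ) := lt_of_lt_of_le hpos hqc
      exact_mod_cast this
    obtain ⟨t, ht⟩ := card_pos.1 h1
    rw [mem_filter] at ht
    rw [← ht.2]
    exact (hf t ht.1).1
  obtain ⟨hqp, hq1, hqQ⟩ := pq_pr hqq
  have hqz : (q : ℤ) ≠ 0 := by exact_mod_cast hqp.ne_zero
  have hqle : ∀ z : ℤ, (-(T : ℤ) ≤ z ∧ z ≤ T) → (-(X : ℤ) ≤ (q : ℤ) * z ∧ (q : ℤ) * z ≤ X) := by
    intro z hz
    have h1 : (q : ℤ) * T ≤ X := by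
      have h2 : q * T ≤ X := by
        calc q * T ≤ Q * T := Nat.mul_le_mul_right _ hqQ
          _ = T * Q := mul_comm _ _
          _ ≤ X := hTX
      exact_mod_cast h2
    have h0 : (0 : ℤ) ≤ q := by positivity
    constructor
    · nlinarith [mul_le_mul_of_nonneg_left hz.1 h0]
    · nlinarith [mul_le_mul_of_nonneg_left hz.2 h0]
  have hinj : (G.filter (fun t => f t = q)).card ≤
      ((Bx X).filter (fun t => LC M a₀ b₀ α β δ t ∧ Tr (t.1 : ℚ) (t.2 : ℚ))).card := by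
    apply card_le_card_of_injOn (fun t : ℤ × ℤ => ((q : ℤ) * t.1, (q : ℤ) * t.2))
    · intro t ht
      rw [mem_coe, mem_filter] at ht
      obtain ⟨ht, hfq⟩ := ht
      have ht' := ht
      rw [hG, mem_filter, mem_Bx] at ht'
      obtain ⟨⟨⟨h1, h2⟩, h3, h4, h5⟩, h6, -⟩ := ht'
      rw [mem_coe, mem_filter, mem_Bx]
      refine ⟨⟨⟨hqle _ h1, hqle _ h2⟩, mul_ne_zero hqz h3, mul_ne_zero hqz h4,
        fun h => h5 (mul_left_cancel₀ hqz h)⟩, h6.mul hqp.pos (pq_one hqq hMW), ?_⟩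
      have := (hf t ht).2
      rw [hfq] at this
      exact this
    · intro t _ t' _ h
      simp only [Prod.mk.injEq] at h
      exact Prod.ext (mul_left_cancel₀ hqz h.1) (mul_left_cancel₀ hqz h.2)
  have hinj' : ((G.filter (fun t => f t = q)).card : ℝ) ≤
      (((Bx X).filter (fun t => LC M a₀ b₀ α β δ t ∧ Tr (t.1 : ℚ) (t.2 : ℚ))).card : ℝ) := by
    exact_mod_cast hinj
  refine le_trans ?_ (hqc.trans hinj')
  -- the computation
  have hX0 : (0 : ℝ) ≤ X := Nat.cast_nonneg _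
  have e1 : (X : ℝ) ^ 2 ≤ 4 * (Q : ℝ) ^ 2 * (T : ℝ) ^ 2 := by
    calc (X : ℝ) ^ 2 ≤ (2 * Q * T) ^ 2 := pow_le_pow_left₀ hX0 hXT 2
      _ = _ := by ring
  have e2 : (Q : ℝ) ^ 3 ≤ 8 * L ^ (3 * CE 1) := by
    calc (Q : ℝ) ^ 3 ≤ (2 * L ^ (CE 1)) ^ 3 := pow_le_pow_left₀ hQr.le q2 3
      _ = _ := by rw [mul_pow, ← pow_mul, mul_comm (CE 1) 3]; norm_num
  have hLp : 0 < L := by linarith
  have e3 : 8 * (Q : ℝ) ^ 3 ≤ c * L ^ CC := by
    have h1 : 64 ≤ c * L := by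
      rw [div_le_iff₀ hc] at l2
      linarith
    have h2 : L ^ CC = L ^ (3 * CE 1) * L := by unfold CC; rw [pow_succ]
    rw [h2]
    have h3 : 0 < L ^ (3 * CE 1) := by positivity
    nlinarith
  rw [div_le_div_iff₀ (by positivity) hQr]
  calc (X : ℝ) ^ 2 * Q ≤ (4 * (Q : ℝ) ^ 2 * (T : ℝ) ^ 2) * Q := by gcongr
    _ = (8 * (Q : ℝ) ^ 3) * ((T : ℝ) ^ 2 / 2) := by ring
    _ ≤ (c * L ^ CC) * ((T : ℝ) ^ 2 / 2) := by gcongr
    _ = (c / 2 * (T : ℝ) ^ 2) * L ^ CC := by ring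
    _ ≤ G.card * L ^ CC := by gcongr

end Pool.Agent.K1H97.WA
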