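import Pool.Agent.Y700.VC
import Pool.Agent.TH841.SH.ShaDef

/-!
# The curves `y² = x (x - r² a) (x - r² b)` and `y² = x (x - a) (x - b)`: rational points and `Ш[2]`
-/

set_option autoImplicit false

open WeierstrassCurve

namespace Pool.Agent.K1H97.WA

open Pool.Agent.Y700
open Pool.Agent.TH841.SH.D (Pt act Gal Coch IsCoc IsCob LocTriv cob shaCoc Sha IsShaCoc)

open scoped Classical

section

variable {k : Type} [Field k] {W W' : WeierstrassCurve k} {u r s t : k} (h : VR W W' u r s t)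
  (hD : W'.Δ ≠ 0)

lemma disc_bc (hD : W'.Δ ≠ 0) (L : Type) [Field L] [Algebra k L] : (W'.baseChange L).Δ ≠ 0 := by
  show (W'.map (algebraMap k L)).Δ ≠ 0
  rw [WeierstrassCurve.map_Δ]
  exact (map_ne_zero _).2 hD

/-- the isomorphism on the points over `L` -/
noncomputable def eqL (L : Type) [Field L] [Algebra k L] : Pt W' L ≃+ Pt W L :=
  (show VR (W.baseChange L) (W'.baseChange L) _ _ _ _ from h.map (algebraMap k L)).equiv (disc_bc hD L)

lemma eqL_act {F L : Type} [Field F] [Field L] [Algebra k F] [Algebra k L] (φ : F →ₐ[k] L)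
    (P : Pt W' F) : act W φ (eqL h hD F P) = eqL h hD L (act W' φ P) := by
  match P with
  | .zero => rfl
  | .some x y n =>
    have e1 : eqL h hD F (.some x y n) =
        .some (algebraMap k F u ^ 2 * x + algebraMap k F r)
          (algebraMap k F u ^ 3 * y + algebraMap k F u ^ 2 * algebraMap k F s * x + algebraMap k F t)
          (nonsing ((h.map (algebraMap k F)).delta_ne (disc_bc hD F))
            ((h.map (algebraMap k F)).eqn.2 n.1)) := rfl
    rw [e1]
    show (Affine.Point.some (φ _) (φ _) _ : (W.baseChange L).toAffine.Point) =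
      Affine.Point.some (algebraMap k L u ^ 2 * φ x + algebraMap k L r)
          (algebraMap k L u ^ 3 * φ y + algebraMap k L u ^ 2 * algebraMap k L s * φ x +
            algebraMap k L t) _
    rw [Affine.Point.some.injEq]
    simp only [map_add, map_mul, map_pow, AlgHom.commutes]
    exact ⟨trivial, trivial⟩

lemma eqL_symm_act {F L : Type} [Field F] [Field L] [Algebra k F] [Algebra k L] (φ : F →ₐ[k] L)
    (P : Pt W F) : act W' φ ((eqL h hD F).symm P) = (eqL h hD L).symm (act W φ P) := by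
  apply (eqL h hD L).injective
  rw [← eqL_act, AddEquiv.apply_symm_apply, AddEquiv.apply_symm_apply]

end

section

variable {k : Type} [Field k] {W W' : WeierstrassCurve k} {u r s t : k} (h : VR W W' u r s t)
  (hD : W'.Δ ≠ 0)

/-- the transfer of the cochains -/
noncomputable def tr (f : Coch W) : Coch W' := fun σ => (eqL h hD (AlgebraicClosure k)).symm (f σ)

lemma tr_coc {f : Coch W} (hf : IsCoc W f) : IsCoc W' (tr h hD f) := by
  refine ⟨hf.1.comp _, fun σ τ => ?_⟩
  show (eqL h hD (AlgebraicClosure k)).symm (f (σ * τ)) =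
    (eqL h hD (AlgebraicClosure k)).symm (f σ) + act W' σ.toAlgHom ((eqL h hD (AlgebraicClosure k)).symm (f τ))
  rw [hf.2, eqL_symm_act, map_add]

lemma tr_loc {K : Type} [Field K] [Algebra k K] {f : Coch W} (hf : LocTriv W K f) :
    LocTriv W' K (tr h hD f) := by
  intro ι
  obtain ⟨R, hR⟩ := hf ι
  refine ⟨(eqL h hD _).symm R, fun τ σ hτσ => ?_⟩
  show act W' ι ((eqL h hD (AlgebraicClosure k)).symm (f σ)) = _
  rw [eqL_symm_act, hR τ σ hτσ, map_sub, ← eqL_symm_act]

lemma tr_cob {f : Coch W} (hf : IsCob W f) : IsCob W' (tr h hD f) := by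
  obtain ⟨P, hP⟩ := hf
  refine ⟨(eqL h hD _).symm P, fun σ => ?_⟩
  show (eqL h hD (AlgebraicClosure k)).symm (f σ) = _
  rw [hP, map_sub, ← eqL_symm_act]

lemma cob_tr {f : Coch W} (hf : IsCob W' (tr h hD f)) : IsCob W f := by
  obtain ⟨R, hR⟩ := hf
  refine ⟨eqL h hD _ R, fun σ => ?_⟩
  have e1 : (eqL h hD (AlgebraicClosure k)).symm (f σ) = act W' σ.toAlgHom R - R := hR σ
  have e2 := congrArg (eqL h hD (AlgebraicClosure k)) e1
  rw [AddEquiv.apply_symm_apply, map_sub, ← eqL_act] at e2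
  exact e2

lemma tr_add (f g : Coch W) : tr h hD (f + g) = tr h hD f + tr h hD g := by
  funext σ
  show (eqL h hD (AlgebraicClosure k)).symm (f σ + g σ) =
    (eqL h hD (AlgebraicClosure k)).symm (f σ) + (eqL h hD (AlgebraicClosure k)).symm (g σ)
  rw [map_add]

end

section

variable {W W' : WeierstrassCurve ℚ} {u r s t : ℚ} (h : VR W W' u r s t) (hD : W'.Δ ≠ 0)

/-- the class of a cocycle -/
noncomputable def cl (W : WeierstrassCurve ℚ) : shaCoc W →+ Sha W :=
  QuotientAddGroup.mk' ((cob W).addSubgroupOf (shaCoc W))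

lemma cl_zero {W : WeierstrassCurve ℚ} (f : shaCoc W) : cl W f = 0 ↔ IsCob W (f : Coch W) :=
  QuotientAddGroup.eq_zero_iff f

include h hD in
/-- the 2-torsion of the Tate-Shafarevich group under a change of variables -/
theorem sha_vr (hsha : ∀ s : Sha W', s + s = 0 → s = 0) : ∀ s : Sha W, s + s = 0 → s = 0 := by
  intro q hq
  obtain ⟨f, rfl⟩ := QuotientAddGroup.mk'_surjective ((cob W).addSubgroupOf (shaCoc W)) q
  change cl W f + cl W f = 0 at hq
  change cl W f = 0
  have hf : IsShaCoc W (f : Coch W) := f.2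
  rw [← map_add, cl_zero, AddSubgroup.coe_add] at hq
  have hf' : IsShaCoc W' (tr h hD (f : Coch W)) :=
    ⟨tr_coc h hD hf.1, fun p _ => tr_loc h hD (hf.2.1 p), tr_loc h hD hf.2.2⟩
  have h1 := tr_cob h hD hq
  rw [tr_add] at h1
  have h2 := hsha (cl W' ⟨_, hf'⟩) (by
    rw [← map_add, cl_zero]
    exact h1)
  rw [cl_zero] at h2 ⊢
  exact cob_tr h hD h2

end

/-- the curve `y² = x (x - a) (x - b)` -/
def E (a b : ℚ) : WeierstrassCurve ℚ := ⟨0, -(a + b), 0, a * b, 0⟩

lemma E_disc {a b : ℚ} (ha : a ≠ 0) (hb : b ≠ 0) (hab : a ≠ b) : (E a b).Δ ≠ 0 := by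
  have e : (E a b).Δ = 16 * (a * b * (a - b)) ^ 2 := by
    simp only [E, WeierstrassCurve.Δ, WeierstrassCurve.b₂, WeierstrassCurve.b₄,
      WeierstrassCurve.b₆, WeierstrassCurve.b₈]
    ring
  rw [e]
  exact mul_ne_zero (by norm_num) (pow_ne_zero 2 (mul_ne_zero (mul_ne_zero ha hb)
    (sub_ne_zero.2 hab)))

lemma E_vr (a b : ℚ) {r : ℚ} (hr : r ≠ 0) : VR (E (r ^ 2 * a) (r ^ 2 * b)) (E a b) r 0 0 0 where
  u0 := hr
  e1 := by simp [E]
  e2 := by simp [E]; ring
  e3 := by simp [E]
  e4 := by simp [E]; ring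
  e6 := by simp [E]

/-- an elliptic curve `y² = x (x - a) (x - b)` with finitely many rational points whose
Tate-Shafarevich group has no element of order two -/
structure Tr (a b : ℚ) : Prop where
  ha : a ≠ 0
  hb : b ≠ 0
  hab : a ≠ b
  fin : Finite (E a b).toAffine.Point
  sha : ∀ x : Sha (E a b), x + x = 0 → x = 0

theorem Tr.scale {a b : ℚ} (h : Tr a b) {r : ℚ} (hr : r ≠ 0) : Tr (r ^ 2 * a) (r ^ 2 * b) := by
  have hD := E_disc h.ha h.hb h.hab
  refine ⟨mul_ne_zero (pow_ne_zero 2 hr) h.ha, mul_ne_zero (pow_ne_zero 2 hr) h.hb, fun e => h.hab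
    (mul_left_cancel₀ (pow_ne_zero 2 hr) e), ?_, fun x hx => ?_⟩
  · have := h.fin
    exact Finite.of_equiv _ ((E_vr a b hr).equiv hD).toEquiv
  · exact sha_vr (E_vr a b hr) hD h.sha x hx

end Pool.Agent.K1H97.WA
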