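import Pool.Agent.K1H97.WA.Tw

/-!
# Counting the pairs of integers in a cone and in residue classes
-/

set_option autoImplicit false

namespace Pool.Agent.K1H97.WA

open Finset
open Pool.Agent.Y676

/-- the local conditions: the residue classes of `a` and `b` modulo `M`, and the direction of the
vector `(a, b)`: up to a positive factor it is in the open square of side `2 δ` with centre `(α, β)` -/
structure LC (M : ℕ) (a₀ b₀ : ℤ) (α β δ : ℝ) (t : ℤ × ℤ) : Prop where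
  ca : t.1 ≡ a₀ [ZMOD M]
  cb : t.2 ≡ b₀ [ZMOD M]
  re : ∃ u : ℝ, 0 < u ∧ |(t.1 : ℝ) - u * α| < u * δ ∧ |(t.2 : ℝ) - u * β| < u * δ

lemma LC.mul {M : ℕ} {a₀ b₀ : ℤ} {α β δ : ℝ} {t : ℤ × ℤ} (h : LC M a₀ b₀ α β δ t) {q : ℕ}
    (hq0 : 0 < q) (hq : (q : ℤ) ≡ 1 [ZMOD M]) : LC M a₀ b₀ α β δ ((q : ℤ) * t.1, (q : ℤ) * t.2) := by
  obtain ⟨ca, cb, u, hu, h1, h2⟩ := h
  have hq0' : (0 : ℝ) < q := by exact_mod_cast hq0
  refine ⟨?_, ?_, q * u, by positivity, ?_, ?_⟩
  · have := hq.mul ca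
    rwa [one_mul] at this
  · have := hq.mul cb
    rwa [one_mul] at this
  · have e : (((q : ℤ) * t.1 : ℤ) : ℝ) - q * u * α = q * ((t.1 : ℝ) - u * α) := by push_cast; ring
    rw [e, abs_mul, abs_of_pos hq0', mul_assoc]
    exact mul_lt_mul_of_pos_left h1 hq0'
  · have e : (((q : ℤ) * t.2 : ℤ) : ℝ) - q * u * β = q * ((t.2 : ℝ) - u * β) := by push_cast; ring
    rw [e, abs_mul, abs_of_pos hq0', mul_assoc]
    exact mul_lt_mul_of_pos_left h2 hq0'

/-- `n` integers of a residue class in an interval -/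
lemma run (M : ℕ) (hM : 0 < M) (a₀ : ℤ) (c r : ℝ) (n : ℕ) (hn : (M : ℝ) * n ≤ r) (hr : 0 < r) :
    ∃ x : ℤ, x ≡ a₀ [ZMOD M] ∧ ∀ i : ℕ, i < n → |((x + M * i : ℤ) : ℝ) - c| < r := by
  have hM' : (0 : ℝ) < M := by exact_mod_cast hM
  obtain ⟨k, hk⟩ : ∃ k : ℤ, k = ⌊(c - r - a₀) / M⌋ + 1 := ⟨_, rfl⟩
  have h1 : (c - r - a₀) / M < k := by
    rw [hk]
    push_cast
    exact Int.lt_floor_add_one _
  have h2 : (k : ℝ) ≤ (c - r - a₀) / M + 1 := by
    rw [hk]
    push_cast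
    linarith [Int.floor_le ((c - r - a₀) / M)]
  rw [div_lt_iff₀ hM'] at h1
  have h3 : (k : ℝ) * M ≤ c - r - a₀ + M := by
    have := mul_le_mul_of_nonneg_right h2 hM'.le
    rwa [add_mul, one_mul, div_mul_cancel₀ _ hM'.ne'] at this
  refine ⟨a₀ + M * k, ?_, fun i hi => ?_⟩
  · exact Int.modEq_iff_dvd.2 ⟨-k, by ring⟩
  · rw [abs_lt]
    push_cast
    have hi' : (i : ℝ) + 1 ≤ n := by exact_mod_cast hi
    have hi0 : (0 : ℝ) ≤ i := Nat.cast_nonneg _
    have h4 : (M : ℝ) * i + M ≤ r := by nlinarith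
    have h5 : 0 ≤ (M : ℝ) * i := by positivity
    constructor <;> nlinarith

open Classical in
/-- the number of the pairs with the local conditions -/
theorem cone_count (M : ℕ) (hM : 0 < M) (a₀ b₀ : ℤ) (α β δ : ℝ) (hδ : 0 < δ) :
    ∃ c : ℝ, 0 < c ∧ ∃ T0 : ℕ, ∀ T : ℕ, T0 ≤ T →
      c * (T : ℝ) ^ 2 ≤ (((Bx T).filter (LC M a₀ b₀ α β δ)).card : ℝ) := by
  have hM' : (0 : ℝ) < M := by exact_mod_cast hM
  -- a smaller square away from the three lines
  obtain ⟨α', hα1, hα2⟩ : ∃ α' : ℝ, |α' - α| ≤ δ / 2 ∧ α' ≠ 0 := by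
    by_cases h : α = 0
    · exact ⟨δ / 2, by rw [h, sub_zero, abs_of_pos (by linarith)], by linarith⟩
    · exact ⟨α, by rw [sub_self, abs_zero]; linarith, h⟩
  obtain ⟨β', hβ1, hβ2, hβ3⟩ : ∃ β' : ℝ, |β' - β| ≤ δ / 2 ∧ β' ≠ 0 ∧ β' ≠ α' := by
    by_cases h : β = 0 ∨ β = α'
    · by_cases h' : β + δ / 2 = 0 ∨ β + δ / 2 = α'
      · refine ⟨β + δ / 4, ?_, ?_, ?_⟩
        · rw [add_sub_cancel_left, abs_of_pos (by linarith)]; linarith
        · intro h3
          rcases h with h | h <;> rcases h' with h' | h'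
          · linarith
          · linarith
          · linarith
          · linarith
        · intro h3
          rcases h with h | h <;> rcases h' with h' | h'
          · linarith
          · linarith
          · linarith
          · linarith
      · push Not at h'
        exact ⟨β + δ / 2, by rw [add_sub_cancel_left, abs_of_pos (by linarith)], h'.1, h'.2⟩
    · push Not at h
      exact ⟨β, by rw [sub_self, abs_zero]; linarith, h.1, h.2⟩
  obtain ⟨η, hη⟩ : ∃ η : ℝ, η = min (δ / 2) (min |α'| (min |β'| (|β' - α'| / 2))) := ⟨_, rfl⟩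
  have hη0 : 0 < η := by
    rw [hη]
    refine lt_min (by linarith) (lt_min (abs_pos.2 hα2) (lt_min (abs_pos.2 hβ2) ?_))
    have := abs_pos.2 (sub_ne_zero.2 hβ3)
    linarith
  have η1 : η ≤ δ / 2 := by rw [hη]; exact min_le_left _ _
  have η2 : η ≤ |α'| := by rw [hη]; exact (min_le_right _ _).trans (min_le_left _ _)
  have η3 : η ≤ |β'| := by
    rw [hη]; exact (min_le_right _ _).trans ((min_le_right _ _).trans (min_le_left _ _))
  have η4 : η ≤ |β' - α'| / 2 := by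
    rw [hη]; exact (min_le_right _ _).trans ((min_le_right _ _).trans (min_le_right _ _))
  obtain ⟨K, hK⟩ : ∃ K : ℝ, K = |α'| + |β'| + η := ⟨_, rfl⟩
  have hK0 : 0 < K := by
    rw [hK]
    have := abs_nonneg α'
    have := abs_nonneg β'
    linarith
  obtain ⟨T0, hT0⟩ := exists_nat_ge (2 * M * K / η)
  refine ⟨(η / (2 * M * K)) ^ 2, by positivity, T0 + 1, fun T hT => ?_⟩
  have hT1 : (0 : ℝ) < T := by exact_mod_cast (by omega : 0 < T)
  obtain ⟨u, hu⟩ : ∃ u : ℝ, u = T / K := ⟨_, rfl⟩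
  have hu0 : 0 < u := by rw [hu]; positivity
  obtain ⟨r, hr⟩ : ∃ r : ℝ, r = u * η := ⟨_, rfl⟩
  have hr0 : 0 < r := by rw [hr]; positivity
  obtain ⟨n, hn⟩ : ∃ n : ℕ, n = ⌊r / M⌋₊ := ⟨_, rfl⟩
  have hn1 : (M : ℝ) * n ≤ r := by
    have h1 : (n : ℝ) ≤ r / M := by rw [hn]; exact Nat.floor_le (by positivity)
    rw [le_div_iff₀ hM'] at h1
    linarith
  have hn2 : η / (2 * M * K) * T ≤ n := by
    have h1 : r / M < n + 1 := by rw [hn]; exact Nat.lt_floor_add_one _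
    have h2 : 2 ≤ r / M := by
      rw [le_div_iff₀ hM', hr, hu]
      have h3 : 2 * M * K / η ≤ T := hT0.trans (by exact_mod_cast (by omega : T0 ≤ T))
      rw [div_le_iff₀ hη0] at h3
      have e : (T : ℝ) / K * η = T * η / K := by ring
      rw [e, le_div_iff₀ hK0]
      linarith
    have h3 : η / (2 * M * K) * T = r / M / 2 := by
      rw [hr, hu]
      field_simp
    rw [h3]
    linarith
  obtain ⟨x, hx1, hx2⟩ := run M hM a₀ (u * α') r n hn1 hr0
  obtain ⟨y, hy1, hy2⟩ := run M hM b₀ (u * β') r n hn1 hr0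
  have hbd : ∀ (z : ℤ) (γ : ℝ), |γ| + η ≤ K → |(z : ℝ) - u * γ| < r → -(T : ℤ) ≤ z ∧ z ≤ T := by
    intro z γ hγ hz
    have h1 : |(z : ℝ)| ≤ T := by
      have h2 : |(z : ℝ)| ≤ |(z : ℝ) - u * γ| + |u * γ| := by
        have := abs_add_le ((z : ℝ) - u * γ) (u * γ)
        rwa [sub_add_cancel] at this
      have h3 : |u * γ| = u * |γ| := by rw [abs_mul, abs_of_pos hu0]
      have h4 : u * (|γ| + η) ≤ T := by
        calc u * (|γ| + η) ≤ u * K := mul_le_mul_of_nonneg_left hγ hu0.le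
          _ = T := by rw [hu, div_mul_cancel₀ _ hK0.ne']
      rw [hr] at hz
      nlinarith
    rw [abs_le] at h1
    exact ⟨by exact_mod_cast h1.1, by exact_mod_cast h1.2⟩
  have hne : ∀ (z : ℤ) (γ : ℝ), η ≤ |γ| → |(z : ℝ) - u * γ| < r → z ≠ 0 := by
    intro z γ hγ hz h0
    rw [h0, Int.cast_zero, zero_sub, abs_neg, abs_mul, abs_of_pos hu0, hr] at hz
    have := mul_le_mul_of_nonneg_left hγ hu0.le
    linarith
  have hmem : ∀ i < n, ∀ j < n, (x + M * (i : ℤ), y + M * (j : ℤ)) ∈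
      (Bx T).filter (LC M a₀ b₀ α β δ) := by
    intro i hi j hj
    have k1 := hx2 i hi
    have k2 := hy2 j hj
    rw [mem_filter, mem_Bx]
    have hα' : |α'| + η ≤ K := by rw [hK]; linarith [abs_nonneg β']
    have hβ' : |β'| + η ≤ K := by rw [hK]; linarith [abs_nonneg α']
    refine ⟨⟨⟨hbd _ _ hα' k1, hbd _ _ hβ' k2⟩, hne _ _ η2 k1, hne _ _ η3 k2, ?_⟩, ?_, ?_, u, hu0,
      ?_, ?_⟩
    · intro he
      have he' : ((x + M * (i : ℤ) : ℤ) : ℝ) = ((y + M * (j : ℤ) : ℤ) : ℝ) := by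
        exact_mod_cast he
      have h5 : |u * (β' - α')| < 2 * r := by
        have e : u * (β' - α') = (((x + M * (i : ℤ) : ℤ) : ℝ) - u * α') -
          (((y + M * (j : ℤ) : ℤ) : ℝ) - u * β') := by rw [he']; ring
        rw [e]
        have := abs_sub (((x + M * (i : ℤ) : ℤ) : ℝ) - u * α') (((y + M * (j : ℤ) : ℤ) : ℝ) - u * β')
        linarith
      rw [abs_mul, abs_of_pos hu0, hr] at h5
      have h6 := mul_le_mul_of_nonneg_left η4 hu0.le
      linarith
    · exact (Int.modEq_iff_dvd.2 ⟨-(i : ℤ), by ring⟩ : x + M * (i : ℤ) ≡ x [ZMOD M]).trans hx1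
    · exact (Int.modEq_iff_dvd.2 ⟨-(j : ℤ), by ring⟩ : y + M * (j : ℤ) ≡ y [ZMOD M]).trans hy1
    · have e : ((x + M * (i : ℤ) : ℤ) : ℝ) - u * α = (((x + M * (i : ℤ) : ℤ) : ℝ) - u * α') +
          u * (α' - α) := by ring
      show |((x + M * (i : ℤ) : ℤ) : ℝ) - u * α| < u * δ
      rw [e]
      have h5 := abs_add_le (((x + M * (i : ℤ) : ℤ) : ℝ) - u * α') (u * (α' - α))
      rw [abs_mul u, abs_of_pos hu0] at h5
      rw [hr] at k1
      have h6 := mul_le_mul_of_nonneg_left hα1 hu0.le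
      have h7 := mul_le_mul_of_nonneg_left η1 hu0.le
      linarith
    · have e : ((y + M * (j : ℤ) : ℤ) : ℝ) - u * β = (((y + M * (j : ℤ) : ℤ) : ℝ) - u * β') +
          u * (β' - β) := by ring
      show |((y + M * (j : ℤ) : ℤ) : ℝ) - u * β| < u * δ
      rw [e]
      have h5 := abs_add_le (((y + M * (j : ℤ) : ℤ) : ℝ) - u * β') (u * (β' - β))
      rw [abs_mul u, abs_of_pos hu0] at h5
      rw [hr] at k2
      have h6 := mul_le_mul_of_nonneg_left hβ1 hu0.le
      have h7 := mul_le_mul_of_nonneg_left η1 hu0.le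
      linarith
  have hcard : n * n ≤ ((Bx T).filter (LC M a₀ b₀ α β δ)).card := by
    have h1 : ((range n) ×ˢ (range n)).card = n * n := by rw [card_product, card_range]
    rw [← h1]
    apply card_le_card_of_injOn (fun p : ℕ × ℕ => (x + M * (p.1 : ℤ), y + M * (p.2 : ℤ)))
    · intro p hp
      rw [mem_coe, mem_product, mem_range, mem_range] at hp
      exact hmem _ hp.1 _ hp.2
    · intro p _ p' _ hpp
      simp only [Prod.mk.injEq] at hpp
      have hMz : (M : ℤ) ≠ 0 := by exact_mod_cast hM.ne'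
      have e1 := mul_left_cancel₀ hMz (add_left_cancel hpp.1)
      have e2 := mul_left_cancel₀ hMz (add_left_cancel hpp.2)
      exact Prod.ext (by exact_mod_cast e1) (by exact_mod_cast e2)
  have hc : (n : ℝ) * n ≤ (((Bx T).filter (LC M a₀ b₀ α β δ)).card : ℝ) := by exact_mod_cast hcard
  refine le_trans ?_ hc
  have h0 : 0 ≤ η / (2 * M * K) * T := by positivity
  calc (η / (2 * M * K)) ^ 2 * (T : ℝ) ^ 2 = (η / (2 * M * K) * T) * (η / (2 * M * K) * T) := by ring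
    _ ≤ n * n := mul_le_mul hn2 hn2 h0 (Nat.cast_nonneg _)

end Pool.Agent.K1H97.WA
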