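import Pool.Agent.Y676.GQ
import Pool.Agent.K1H97.WA.Iso

/-!
# A typical curve has a twist by a small prime `q ≡ 1` with trivial 2-primary part of Ш
-/

set_option autoImplicit false

open WeierstrassCurve

namespace Pool.Agent.K1H97.WA

open Finset
open Pool.Agent.Y676
open Pool.Agent.TH841.SH (SelG LocC IsR)
open Pool.Agent.TH841.SH.D (Sha)
open Pool.Agent.H437R2.Man.MW (crv pt_fg)

lemma isR_E (A B : ℤ) : IsR (E A B) ((0 : ℤ) : ℚ) (A : ℚ) (B : ℚ) := by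
  refine ⟨rfl, ?_, rfl, ?_, ?_⟩
  · show -((A : ℚ) + B) = _
    push_cast
    ring
  · show (A : ℚ) * B = _
    push_cast
    ring
  · show (0 : ℚ) = _
    push_cast
    ring

/-- finitely many rational points -/
lemma fin_E {A B : ℤ} (h : A ≠ B) (hA : A ≠ 0) (hB : B ≠ 0)
    (hr : Module.finrank ℤ (E A B).toAffine.Point = 0) : Finite (E A B).toAffine.Point := by
  have hW : E A B = crv (-((0 : ℤ) : ℚ)) (-(A : ℚ)) (-(B : ℚ)) := by
    apply WeierstrassCurve.ext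
    · rfl
    · show -((A : ℚ) + B) = -((0 : ℤ) : ℚ) + -(A : ℚ) + -(B : ℚ)
      push_cast
      ring
    · rfl
    · show (A : ℚ) * B = -((0 : ℤ) : ℚ) * -(A : ℚ) + -((0 : ℤ) : ℚ) * -(B : ℚ) + -(A : ℚ) * -(B : ℚ)
      push_cast
      ring
    · show (0 : ℚ) = -((0 : ℤ) : ℚ) * -(A : ℚ) * -(B : ℚ)
      push_cast
      ring
  have hfg : AddGroup.FG (E A B).toAffine.Point := by
    rw [hW]
    refine pt_fg ?_ ?_ ?_
    · intro h0
      apply hA
      have := neg_injective h0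
      exact_mod_cast this.symm
    · intro h0
      apply hB
      have := neg_injective h0
      exact_mod_cast this.symm
    · intro h0
      apply h
      have := neg_injective h0
      exact_mod_cast this
  have hf : Module.Finite ℤ (E A B).toAffine.Point := Module.Finite.iff_addGroup_fg.2 hfg
  have ht : Module.IsTorsion ℤ (E A B).toAffine.Point := Module.finrank_eq_zero_iff_isTorsion.1 hr
  exact Module.finite_of_fg_torsion _ ht

/-- **The twist by a good prime.** -/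
theorem tw_E {A B : ℤ} {Y : ℕ} (hY : 2 ≤ Y) (h1 : Ty1 Y A B) {s : ℕ → Bool}
    (hs : ∀ e, InS Y A B s e → e = (1, 1)) {q : ℕ} (hq : GoodQ Y A B s q) :
    Tr (((q : ℤ) * A : ℤ) : ℚ) (((q : ℤ) * B : ℤ) : ℚ) := by
  have hqi : Prime (q : ℤ) := Nat.prime_iff_prime_int.1 hq.pr
  have hnd := hq.nd
  have dA : ¬ (q : ℤ) ∣ A := fun h => hnd ((h.mul_right _).mul_right _)
  have dB : ¬ (q : ℤ) ∣ B := fun h => hnd ((h.mul_left _).mul_right _)
  have dAB : ¬ (q : ℤ) ∣ A - B := fun h => hnd (h.mul_left _)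
  have hA0 : A ≠ 0 := fun h => dA (by rw [h]; exact dvd_zero _)
  have hB0 : B ≠ 0 := fun h => dB (by rw [h]; exact dvd_zero _)
  have hAB0 : A - B ≠ 0 := fun h => dAB (by rw [h]; exact dvd_zero _)
  have hAB : A ≠ B := fun h => hAB0 (sub_eq_zero.2 h)
  have hq0 := hqi.ne_zero
  have hsub : SelG 0 ((q : ℤ) * A) ((q : ℤ) * B) ⊆
      {e | InSel ((q : ℤ) * A) ((q : ℤ) * B) e} := by
    rintro e ⟨k1, k2, k3, k4⟩
    have hl : ∀ {K : Type} [Field K], LocC K 0 ((q : ℤ) * A) ((q : ℤ) * B) e.1 e.2 →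
        Pool.Agent.W307.SE.Loc K ((q : ℤ) * A) ((q : ℤ) * B) e.1 e.2 := by
      intro K _ hK
      have := loc_of_locC hK
      rwa [sub_zero, sub_zero] at this
    exact ⟨k1, k2, hl k3, fun p _ => hl (k4 p)⟩
  obtain ⟨hfin, hcard⟩ := sel_card hY h1 hs hq
  obtain ⟨g1, g2⟩ := sha4 (E ((q : ℤ) * A : ℤ) ((q : ℤ) * B : ℤ)) 0 ((q : ℤ) * A) ((q : ℤ) * B)
    (isR_E _ _) (mul_ne_zero hq0 hA0).symm (mul_ne_zero hq0 hB0).symm
    (fun h => hAB (mul_left_cancel₀ hq0 h))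
    (hfin.subset hsub) ((Set.ncard_le_ncard hsub hfin).trans hcard)
    (by
      have e : ((0 : ℤ) : ℚ) - (((q : ℤ) * A : ℤ) : ℚ) = ((q * (-A) : ℤ) : ℚ) := by
        push_cast; ring
      rw [e]
      exact nsq hq.pr (fun h => dA ((dvd_neg).1 h)))
    (by
      have e : (((q : ℤ) * A : ℤ) : ℚ) - ((0 : ℤ) : ℚ) = ((q * A : ℤ) : ℚ) := by
        push_cast; ring
      rw [e]
      exact nsq hq.pr dA)
    (by
      have e : (((q : ℤ) * B : ℤ) : ℚ) - ((0 : ℤ) : ℚ) = ((q * B : ℤ) : ℚ) := by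
        push_cast; ring
      rw [e]
      exact nsq hq.pr dB)
  have hne : (q : ℤ) * A ≠ (q : ℤ) * B := fun h => hAB (mul_left_cancel₀ hq0 h)
  refine ⟨by exact_mod_cast mul_ne_zero hq0 hA0, by exact_mod_cast mul_ne_zero hq0 hB0,
    by exact_mod_cast hne, fin_E hne (mul_ne_zero hq0 hA0) (mul_ne_zero hq0 hB0) g1,
    fun x hx => ?_⟩
  have h3 := sub_tor g2 1
  have h5 : (2 ^ 1) • x = 0 := by
    rw [pow_one, two_nsmul]
    exact hx
  exact congrArg Subtype.val (h3.elim ⟨x, h5⟩ ⟨0, smul_zero _⟩)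

/-- the tuple with one entry -/
def one1 (t : ℤ × ℤ) : Fin 1 → ℤ × ℤ := fun _ => t

lemma mem_TB_one {X : ℕ} {t : ℤ × ℤ} : one1 t ∈ TB 1 X ↔ t ∈ Bx X := by
  rw [mem_TB]
  exact ⟨fun h => h 0, fun h _ => h⟩

/-- **A typical curve has a good twist.** -/
theorem exists_tw {X Y Q : ℕ} (hY : 2 ≤ Y) {t : ℤ × ℤ} (ht : t ∈ Bx X) (hG : GT Y X Q (one1 t))
    (hPQ : 0 < (PQ (WY Y) Q).card) :
    ∃ q ∈ PQ (WY Y) Q, Tr (((q : ℤ) * t.1 : ℤ) : ℚ) (((q : ℤ) * t.2 : ℤ) : ℚ) := by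
  have hB := mem_Bx.1 ht
  obtain ⟨s, hs⟩ := exists_signs hY (mul_ne_zero (mul_ne_zero hB.2.1 hB.2.2.1)
    (sub_ne_zero.2 hB.2.2.2)) (hG.ty2 0)
  have h1 := hG.pat (kk (one1 t) (fun _ => s)) (kk_pm hG _)
  have h2 : (0 : ℝ) < ((PAT (WY Y) Q (PP Y (one1 t)) (kk (one1 t) (fun _ => s))).card : ℝ) := by
    have h3 : (0 : ℝ) < ((PQ (WY Y) Q).card : ℝ) / 2 := by
      have : (0 : ℝ) < ((PQ (WY Y) Q).card : ℝ) := by exact_mod_cast hPQ
      linarith
    have h4 : (0 : ℝ) < 2 ^ (PP Y (one1 t)).card := by positivity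
    by_contra hcon
    push Not at hcon
    nlinarith
  have h3 : (PAT (WY Y) Q (PP Y (one1 t)) (kk (one1 t) (fun _ => s))).Nonempty := by
    rw [← card_pos]
    exact_mod_cast h2
  obtain ⟨q, hq⟩ := h3
  have hq' := hq
  unfold PAT at hq'
  exact ⟨q, (mem_filter.1 hq').1, tw_E hY (hG.ty1 0) hs
    (goodq_of (mem_TB_one.2 ht) hG (fun _ => s) hq 0)⟩

end Pool.Agent.K1H97.WA
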